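import Pool.Agent.Helper50.HY.Stmts

set_option autoImplicit false

namespace Pool.Agent.Helper97.HY

open MeasureTheory Filter Pool.Agent.Helper95 Pool.Agent.Helper95.PW Pool.Agent.Helper95.LN
  Pool.Agent.Helper50.HY

theorem cls_cont_nr : Continuous nr := by
  unfold nr
  fun_prop

theorem cls_nr_nonneg (y : R3) : 0 ≤ nr y := Real.sqrt_nonneg _

theorem cls_dvsq_int {n : ℕ} (k : Fin n) (i : Fin 3) (v : Cf n → ℝ)
    (hv : ContDiff ℝ (⊤ : ℕ∞) v) (hc : HasCompactSupport v) :
    Integrable (fun x => dv k i v x ^ 2) := by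
  have h1 : Continuous (fun x => dv k i v x) := by
    unfold dv
    exact (hv.continuous_fderiv (by simp)).clm_apply continuous_const
  have h2 : HasCompactSupport (fun x => dv k i v x) := by
    unfold dv
    exact hc.fderiv_apply ℝ _
  have h3 : HasCompactSupport (fun x => dv k i v x ^ 2) := by
    have h4 : HasCompactSupport (fun x => dv k i v x * dv k i v x) := h2.mul_left
    simpa only [pow_two] using h4
  exact (h1.pow 2).integrable_of_hasCompactSupport h3

theorem cls_key {n M : ℕ} (h2 : ST_HAC) (k : Fin n) (X : Fin M → R3) (d l : ℝ)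
    (v : Cf n → ℝ) (hl : 0 ≤ l) (w : Fin M → Cf n → ℝ)
    (hw : ∀ j, ContDiff ℝ (⊤ : ℕ∞) (w j) ∧ HasCompactSupport (w j))
    (hwv : ∀ j x, nr (x k - X j) < d → w j x = v x) :
    Integrable (fun x : Cf n => near1 X d (x k) * v x ^ 2) ∧
    l * ∫ x : Cf n, near1 X d (x k) * v x ^ 2 ≤
      ∑ j, ((∫ x, ∑ i, dv k i (w j) x ^ 2) + l ^ 2 / 4 * ∫ x, w j x ^ 2) := by
  have hI : ∀ j, Integrable (fun x : Cf n =>
      (if nr (x k - X j) < d then 1 / nr (x k - X j) else 0) * v x ^ 2) := by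
    intro j
    have e : (fun x : Cf n => (if nr (x k - X j) < d then 1 / nr (x k - X j) else 0) * v x ^ 2) =
        Set.indicator {x : Cf n | nr (x k - X j) < d} (fun x => w j x ^ 2 / nr (x k - X j)) := by
      funext x
      by_cases h : nr (x k - X j) < d
      · rw [if_pos h, Set.indicator_of_mem (by exact h), hwv j x h]
        ring
      · rw [if_neg h, Set.indicator_of_notMem (by exact h), zero_mul]
    rw [e]
    refine (h2 n k (X j) (w j) 0 (hw j).1 (hw j).2 le_rfl).1.indicator ?_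
    refine measurableSet_lt ?_ measurable_const
    exact (cls_cont_nr.comp (((continuous_apply k)).sub continuous_const)).measurable
  have hle : ∀ j, ∫ x : Cf n, (if nr (x k - X j) < d then 1 / nr (x k - X j) else 0) * v x ^ 2 ≤
      ∫ x, w j x ^ 2 / nr (x k - X j) := by
    intro j
    refine integral_mono (hI j) (h2 n k (X j) (w j) 0 (hw j).1 (hw j).2 le_rfl).1 fun x => ?_
    change (if nr (x k - X j) < d then 1 / nr (x k - X j) else 0) * v x ^ 2 ≤
      w j x ^ 2 / nr (x k - X j)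
    by_cases h : nr (x k - X j) < d
    · rw [if_pos h, hwv j x h]
      exact le_of_eq (by ring)
    · rw [if_neg h, zero_mul]
      exact div_nonneg (sq_nonneg _) (cls_nr_nonneg _)
  have e1 : ∀ x : Cf n, near1 X d (x k) * v x ^ 2 =
      ∑ j, (if nr (x k - X j) < d then 1 / nr (x k - X j) else 0) * v x ^ 2 := by
    intro x
    unfold near1
    rw [Finset.sum_mul]
  simp only [e1]
  refine ⟨integrable_finsetSum _ fun j _ => hI j, ?_⟩
  rw [integral_finsetSum _ fun j _ => hI j, Finset.mul_sum]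
  refine Finset.sum_le_sum fun j _ => ?_
  exact (mul_le_mul_of_nonneg_left (hle j) hl).trans
    (h2 n k (X j) (w j) l (hw j).1 (hw j).2 hl).2

theorem CLS (h1 : ST_IMS) (h2 : ST_HAC) : ST_CLS := by
  obtain ⟨C, hC, hI⟩ := h1
  refine ⟨C, hC, ?_⟩
  intro n M X d l u hd hl hS hu
  have key : ∀ s k, Integrable (fun x : Cf n => near1 X d (x k) * u s x ^ 2) ∧
      l * ∫ x : Cf n, near1 X d (x k) * u s x ^ 2 ≤
        (∑ i, ∫ x, dv k i (u s) x ^ 2) + (l ^ 2 / 4 + C / d ^ 2) * ∫ x, u s x ^ 2 := by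
    intro s k
    obtain ⟨w, hw, hwv, hw1, hw2⟩ := hI n M k X d (u s) hd hS (hu s).1 (hu s).2
    obtain ⟨g1, g2⟩ := cls_key h2 k X d l (u s) hl w hw hwv
    refine ⟨g1, g2.trans ?_⟩
    rw [Finset.sum_add_distrib, ← Finset.mul_sum]
    rw [integral_finsetSum _ fun i _ => cls_dvsq_int k i (u s) (hu s).1 (hu s).2] at hw1
    have h3 := mul_le_mul_of_nonneg_left hw2 (by positivity : (0 : ℝ) ≤ l ^ 2 / 4)
    linarith
  have e1 : ∀ s (x : Cf n), (∑ k, near1 X d (x k)) * u s x ^ 2 =
      ∑ k, near1 X d (x k) * u s x ^ 2 := fun s x => Finset.sum_mul _ _ _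
  refine ⟨fun s => ?_, ?_⟩
  · simp only [e1]
    exact integrable_finsetSum _ fun k _ => (key s k).1
  · have e2 : one (near1 X d) u = ∑ s, ∑ k, ∫ x : Cf n, near1 X d (x k) * u s x ^ 2 := by
      unfold one
      refine Finset.sum_congr rfl fun s _ => ?_
      simp only [e1]
      exact integral_finsetSum _ fun k _ => (key s k).1
    have e3 : kin u = ∑ s, ∑ k, ∑ i, ∫ x, dv k i (u s) x ^ 2 := by
      unfold kin PW.sq
      calc ∑ k, ∑ i, ∑ s, ∫ x, dv k i (u s) x ^ 2
          = ∑ k, ∑ s, ∑ i, ∫ x, dv k i (u s) x ^ 2 :=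
            Finset.sum_congr rfl fun k _ => Finset.sum_comm
        _ = _ := Finset.sum_comm
    rw [e2, e3, Finset.mul_sum]
    calc ∑ s, l * ∑ k, ∫ x : Cf n, near1 X d (x k) * u s x ^ 2
        = ∑ s, ∑ k, l * ∫ x : Cf n, near1 X d (x k) * u s x ^ 2 :=
          Finset.sum_congr rfl fun s _ => Finset.mul_sum _ _ _
      _ ≤ ∑ s, ∑ k, ((∑ i, ∫ x, dv k i (u s) x ^ 2) +
            (l ^ 2 / 4 + C / d ^ 2) * ∫ x, u s x ^ 2) :=
          Finset.sum_le_sum fun s _ => Finset.sum_le_sum fun k _ => (key s k).2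
      _ = (∑ s, ∑ k, ∑ i, ∫ x, dv k i (u s) x ^ 2) +
            (l ^ 2 / 4 + C / d ^ 2) * (n * PW.sq u) := by
          simp only [Finset.sum_add_distrib]
          congr 1
          unfold PW.sq
          simp only [Finset.sum_const, Finset.card_univ, Fintype.card_fin, nsmul_eq_mul]
          rw [← Finset.mul_sum, ← Finset.mul_sum]
          ring

end Pool.Agent.Helper97.HY
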