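import Pool.Agent.Helper50.HY.Stmts
import Pool.Agent.Helper7.PN.HLOC

set_option autoImplicit false

namespace Pool.Agent.Helper97.HY

open MeasureTheory Filter Pool.Agent.Helper95 Pool.Agent.Helper95.PW Pool.Agent.Helper95.LN
  Pool.Agent.Helper50.HY

/-- the cutoff -/
noncomputable def imQ (z : R3) : ℝ := Real.sin (Real.pi / 2 * hlP z)

theorem im_sm : ContDiff ℝ (⊤ : ℕ∞) imQ := by
  unfold imQ
  exact Real.contDiff_sin.comp (contDiff_const.mul hl_sm)

theorem im_pd (i : Fin 3) (z : R3) :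
    pd i imQ z = Real.cos (Real.pi / 2 * hlP z) * (Real.pi / 2 * pd i hlP z) := by
  have hP : HasFDerivAt hlP (fderiv ℝ hlP z) z :=
    (hl_sm.differentiable (by simp) _).hasFDerivAt
  have h1 := (hP.const_mul (Real.pi / 2)).sin
  have e : fderiv ℝ imQ z = _ := h1.fderiv
  unfold pd
  rw [e]
  simp

theorem im_dv {n : ℕ} (d : ℝ) (a : R3) (k : Fin n) (i : Fin 3) {v : Cf n → ℝ}
    (h1 : ContDiff ℝ (⊤ : ℕ∞) v) (x : Cf n) :
    dv k i (fun x => imQ (d⁻¹ • (x k - a)) * v x) x = d⁻¹ * pd i imQ (d⁻¹ • (x k - a)) * v x +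
      imQ (d⁻¹ • (x k - a)) * dv k i v x := by
  have hg : HasFDerivAt (fun x : Cf n => d⁻¹ • (x k - a))
      (d⁻¹ • (ContinuousLinearMap.proj k : Cf n →L[ℝ] R3)) x :=
    ((ContinuousLinearMap.proj k : Cf n →L[ℝ] R3).hasFDerivAt.sub_const a).const_smul d⁻¹
  have hP : HasFDerivAt imQ (fderiv ℝ imQ (d⁻¹ • (x k - a))) (d⁻¹ • (x k - a)) :=
    (im_sm.differentiable (by simp) _).hasFDerivAt
  have hv : HasFDerivAt v (fderiv ℝ v x) x := (h1.differentiable (by simp) x).hasFDerivAt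
  have hm := (hP.comp x hg).mul hv
  have e : fderiv ℝ (fun x => imQ (d⁻¹ • (x k - a)) * v x) x = _ := hm.fderiv
  unfold dv pd
  rw [e]
  simp
  ring

theorem im_cs (t a c : ℝ) : (Real.cos t * c + Real.sin t * a) ^ 2 ≤ a ^ 2 + c ^ 2 := by
  have h := Real.sin_sq_add_cos_sq t
  have e : a ^ 2 + c ^ 2 - (Real.cos t * c + Real.sin t * a) ^ 2 =
      (Real.cos t * a - Real.sin t * c) ^ 2 +
        (1 - (Real.sin t ^ 2 + Real.cos t ^ 2)) * (a ^ 2 + c ^ 2) := by ring
  rw [h] at e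
  nlinarith [sq_nonneg (Real.cos t * a - Real.sin t * c)]

theorem IMS : ST_IMS := by
  obtain ⟨A, hA0, hA⟩ := hl_bd
  refine ⟨3 * (Real.pi / 2 * A) ^ 2 + 1, by positivity, ?_⟩
  intro n M k X d v hd hS hv hc
  have hW : ∀ j : Fin M, ContDiff ℝ (⊤ : ℕ∞) (fun x : Cf n => imQ (d⁻¹ • (x k - X j)) * v x) ∧
      HasCompactSupport (fun x : Cf n => imQ (d⁻¹ • (x k - X j)) * v x) := by
    intro j
    have h : ContDiff ℝ (⊤ : ℕ∞) (fun x : Cf n => d⁻¹ • (x k - X j)) := by fun_prop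
    exact ⟨(im_sm.comp h).mul hv, hc.mul_left⟩
  have hDi : ∀ i, Integrable (fun x => dv k i v x ^ 2) := fun i => hl_dvi k i hv hc
  have hvi := hl_int hv hc
  have hWi : ∀ j i, Integrable
      (fun x => dv k i (fun x : Cf n => imQ (d⁻¹ • (x k - X j)) * v x) x ^ 2) := fun j i =>
    hl_dvi k i (hW j).1 (hW j).2
  refine ⟨fun j x => imQ (d⁻¹ • (x k - X j)) * v x, hW, ?_, ?_, ?_⟩
  · intro j x hx
    have h1 : hlP (d⁻¹ • (x k - X j)) = 1 := hl_one (hl_q1 hd hx)
    simp only [imQ, h1, mul_one, Real.sin_pi_div_two, one_mul]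
  · have hpt : ∀ x : Cf n, ∑ j, ∑ i,
        dv k i (fun x : Cf n => imQ (d⁻¹ • (x k - X j)) * v x) x ^ 2 ≤
        (∑ i, dv k i v x ^ 2) + 3 * (Real.pi / 2 * A) ^ 2 / d ^ 2 * v x ^ 2 := by
      intro x
      rw [Finset.sum_comm]
      have hi : ∀ i : Fin 3, ∑ j,
          dv k i (fun x : Cf n => imQ (d⁻¹ • (x k - X j)) * v x) x ^ 2 ≤
          dv k i v x ^ 2 + (Real.pi / 2 * A) ^ 2 / d ^ 2 * v x ^ 2 := by
        intro i
        simp only [im_dv d _ k i hv x]
        refine hl_sep hS (fun w => (d⁻¹ * pd i imQ (d⁻¹ • w) * v x +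
          imQ (d⁻¹ • w) * dv k i v x) ^ 2) _ (fun z => sq_nonneg _) (fun z => ?_)
          (fun z hz => ?_) (x k)
        · have e : d⁻¹ * pd i imQ (d⁻¹ • z) * v x + imQ (d⁻¹ • z) * dv k i v x =
              Real.cos (Real.pi / 2 * hlP (d⁻¹ • z)) *
                (d⁻¹ * (Real.pi / 2) * pd i hlP (d⁻¹ • z) * v x) +
              Real.sin (Real.pi / 2 * hlP (d⁻¹ • z)) * dv k i v x := by
            rw [im_pd]
            unfold imQ
            ring
          change (d⁻¹ * pd i imQ (d⁻¹ • z) * v x + imQ (d⁻¹ • z) * dv k i v x) ^ 2 ≤ _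
          rw [e]
          refine (im_cs _ _ _).trans ?_
          have h1 : pd i hlP (d⁻¹ • z) ^ 2 ≤ A ^ 2 :=
            sq_le_sq' (by linarith [(abs_le.1 (hA i (d⁻¹ • z))).1]) (abs_le.1 (hA i (d⁻¹ • z))).2
          have h2 : (d⁻¹ * (Real.pi / 2) * pd i hlP (d⁻¹ • z) * v x) ^ 2 =
              (Real.pi / 2) ^ 2 / d ^ 2 * v x ^ 2 * pd i hlP (d⁻¹ • z) ^ 2 := by
            field_simp
          rw [h2]
          have h3 : (Real.pi / 2 * A) ^ 2 / d ^ 2 * v x ^ 2 =
              (Real.pi / 2) ^ 2 / d ^ 2 * v x ^ 2 * A ^ 2 := by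
            ring
          rw [h3]
          have h4 := mul_le_mul_of_nonneg_left h1
            (by positivity : (0 : ℝ) ≤ (Real.pi / 2) ^ 2 / d ^ 2 * v x ^ 2)
          linarith
        · have h1 := hl_q hd hz
          have h2 : hlP (d⁻¹ • z) = 0 := hl_zero h1.le
          have h3 : pd i imQ (d⁻¹ • z) = 0 := by
            rw [im_pd, hl_pd0 h1]; simp
          change (d⁻¹ * pd i imQ (d⁻¹ • z) * v x + imQ (d⁻¹ • z) * dv k i v x) ^ 2 = 0
          rw [h3]
          unfold imQ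
          rw [h2]
          simp
      refine (Finset.sum_le_sum fun i _ => hi i).trans (le_of_eq ?_)
      rw [Finset.sum_add_distrib]
      simp
      ring
    calc ∑ j, ∫ x, ∑ i, dv k i (fun x : Cf n => imQ (d⁻¹ • (x k - X j)) * v x) x ^ 2
        = ∫ x, ∑ j, ∑ i, dv k i (fun x : Cf n => imQ (d⁻¹ • (x k - X j)) * v x) x ^ 2 := by
          rw [integral_finsetSum]
          intro j _
          exact integrable_finsetSum _ fun i _ => hWi j i
      _ ≤ ∫ x, ((∑ i, dv k i v x ^ 2) + 3 * (Real.pi / 2 * A) ^ 2 / d ^ 2 * v x ^ 2) := by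
          refine integral_mono ?_ ?_ fun x => hpt x
          · exact integrable_finsetSum _ fun j _ => integrable_finsetSum _ fun i _ => hWi j i
          · exact (integrable_finsetSum _ fun i _ => hDi i).add (hvi.const_mul _)
      _ = (∫ x, ∑ i, dv k i v x ^ 2) + 3 * (Real.pi / 2 * A) ^ 2 / d ^ 2 * ∫ x, v x ^ 2 := by
          rw [integral_add (integrable_finsetSum _ fun i _ => hDi i) (hvi.const_mul _),
            integral_const_mul]
      _ ≤ (∫ x, ∑ i, dv k i v x ^ 2) +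
          (3 * (Real.pi / 2 * A) ^ 2 + 1) / d ^ 2 * ∫ x, v x ^ 2 := by
          have h0 : 0 ≤ ∫ x, v x ^ 2 := integral_nonneg fun x => sq_nonneg _
          gcongr
          linarith
  · have hw2 : ∀ j : Fin M, Integrable (fun x : Cf n => (imQ (d⁻¹ • (x k - X j)) * v x) ^ 2) :=
      fun j => hl_int (hW j).1 (hW j).2
    calc ∑ j, ∫ x : Cf n, (imQ (d⁻¹ • (x k - X j)) * v x) ^ 2
        = ∫ x : Cf n, ∑ j, (imQ (d⁻¹ • (x k - X j)) * v x) ^ 2 := by
          rw [integral_finsetSum]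
          intro j _
          exact hw2 j
      _ ≤ ∫ x, v x ^ 2 := by
          refine integral_mono (integrable_finsetSum _ fun j _ => hw2 j) hvi fun x => ?_
          change ∑ j, (imQ (d⁻¹ • (x k - X j)) * v x) ^ 2 ≤ v x ^ 2
          have h1 : ∑ j, imQ (d⁻¹ • (x k - X j)) ^ 2 ≤ 1 := by
            refine hl_sep hS (fun w => imQ (d⁻¹ • w) ^ 2) _ (fun z => sq_nonneg _)
              (fun z => ?_) (fun z hz => ?_) (x k)
            · unfold imQ
              exact Real.sin_sq_le_one _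
            · change imQ (d⁻¹ • z) ^ 2 = 0
              unfold imQ
              rw [hl_zero (hl_q hd hz).le]
              simp
          have h2 : ∑ j, (imQ (d⁻¹ • (x k - X j)) * v x) ^ 2 =
              (∑ j, imQ (d⁻¹ • (x k - X j)) ^ 2) * v x ^ 2 := by
            rw [Finset.sum_mul]
            exact Finset.sum_congr rfl fun j _ => by ring
          rw [h2]
          calc _ ≤ 1 * v x ^ 2 := mul_le_mul_of_nonneg_right h1 (sq_nonneg _)
            _ = v x ^ 2 := one_mul _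

end Pool.Agent.Helper97.HY
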